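import Pool.Agent.H58.LM.L.LP1

/-! Quasi-concavity along a shear, after a suitable tilt. -/

set_option autoImplicit false

open MeasureTheory Set Filter
open scoped ENNReal Topology

namespace Pool.Agent.H58.LM.L

/-- the half-line integral of the tilted function -/
noncomputable def FI (u : ℝ × ℝ → ℝ) (σ τ d R c : ℝ) : ℝ :=
  ∫ a in (0 : ℝ)..R, Real.exp (u (σ * a, σ * (τ * a)) + c * (d * (σ * a)))

lemma FI_cont {u : ℝ × ℝ → ℝ} (hu : Continuous u) (σ τ d R : ℝ) : Continuous (FI u σ τ d R) := by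
  unfold FI
  apply intervalIntegral.continuous_parametric_intervalIntegral_of_continuous'
  show Continuous fun q : ℝ × ℝ =>
    Real.exp (u (σ * q.2, σ * (τ * q.2)) + q.1 * (d * (σ * q.2)))
  fun_prop

lemma FI_pos {u : ℝ × ℝ → ℝ} (hu : Continuous u) (σ τ d : ℝ) {R : ℝ} (hR : 0 < R) (c : ℝ) :
    0 < FI u σ τ d R c := by
  unfold FI
  apply intervalIntegral.intervalIntegral_pos_of_pos (Continuous.intervalIntegrable (by fun_prop) _ _)
    (fun x => Real.exp_pos _) hR

lemma FI_le {u : ℝ × ℝ → ℝ} {M : ℝ} (hu : Nice u M) {σ τ d : ℝ} (hσ : |σ| = 1) {R : ℝ}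
    (hR : 0 < R) {c : ℝ} (hc : M * (1 + |τ|) ≤ -(c * d * σ)) :
    FI u σ τ d R c ≤ R * Real.exp (u (0, 0)) := by
  have huc := hu.cont
  have h1 : FI u σ τ d R c ≤ ∫ _ in (0 : ℝ)..R, Real.exp (u (0, 0)) := by
    unfold FI
    apply intervalIntegral.integral_mono_on hR.le (Continuous.intervalIntegrable (by fun_prop) _ _)
      (Continuous.intervalIntegrable (by fun_prop) _ _)
    intro a ha
    apply Real.exp_le_exp.2
    have h2 := (abs_le.1 (hu.lip (σ * a, σ * (τ * a)) (0, 0))).2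
    simp only [sub_zero, abs_mul, hσ, one_mul, abs_of_nonneg ha.1] at h2
    have h3 := mul_le_mul_of_nonneg_right hc ha.1
    nlinarith
  rw [intervalIntegral.integral_const, sub_zero, smul_eq_mul] at h1
  exact h1

lemma FI_ge {u : ℝ × ℝ → ℝ} {M : ℝ} (hu : Nice u M) {σ τ d : ℝ} (hσ : |σ| = 1) {R : ℝ}
    (hR : 0 < R) {c : ℝ} (hc : M * (1 + |τ|) ≤ c * d * σ) :
    R * Real.exp (u (0, 0)) ≤ FI u σ τ d R c := by
  have huc := hu.cont
  have h1 : ∫ _ in (0 : ℝ)..R, Real.exp (u (0, 0)) ≤ FI u σ τ d R c := by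
    unfold FI
    apply intervalIntegral.integral_mono_on hR.le (Continuous.intervalIntegrable (by fun_prop) _ _)
      (Continuous.intervalIntegrable (by fun_prop) _ _)
    intro a ha
    apply Real.exp_le_exp.2
    have h2 := (abs_le.1 (hu.lip (σ * a, σ * (τ * a)) (0, 0))).1
    simp only [sub_zero, abs_mul, hσ, one_mul, abs_of_nonneg ha.1] at h2
    have h3 := mul_le_mul_of_nonneg_right hc ha.1
    nlinarith
  rw [intervalIntegral.integral_const, sub_zero, smul_eq_mul] at h1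
  exact h1

/-- the whole-line integral splits -/
lemma FI_add {u : ℝ × ℝ → ℝ} (hu : Continuous u) (τ d : ℝ) {R : ℝ} (hR : 0 < R) (c : ℝ) :
    ∫⁻ a in Ioc (-R) R, ENNReal.ofReal (Real.exp (u (a, τ * a) + c * (d * a))) =
      ENNReal.ofReal (FI u 1 τ d R c + FI u (-1) τ d R c) := by
  have hcont : Continuous fun a : ℝ => Real.exp (u (a, τ * a) + c * (d * a)) := by fun_prop
  rw [← ofReal_integral_eq_lintegral_ofReal (hcont.integrableOn_Ioc)
    (Eventually.of_forall fun a => (Real.exp_pos _).le)]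
  congr 1
  rw [← intervalIntegral.integral_of_le (by linarith),
    ← intervalIntegral.integral_add_adjacent_intervals (b := 0) (hcont.intervalIntegrable _ _)
      (hcont.intervalIntegrable _ _), add_comm]
  congr 1
  · unfold FI
    simp only [one_mul]
  · unfold FI
    have := intervalIntegral.integral_comp_neg (a := 0) (b := R)
      (fun a : ℝ => Real.exp (u (a, τ * a) + c * (d * a)))
    rw [neg_zero] at this
    rw [← this]
    apply intervalIntegral.integral_congr
    intro a _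
    show Real.exp _ = Real.exp _
    congr 2
    · congr 2
      · ring
      · ring
    · ring

/-- existence of a good tilt at finite level -/
lemma exists_tilt {u : ℝ × ℝ → ℝ} {M : ℝ} (hu : Nice u M) {t0 t1 l t : ℝ} (h01 : t0 < t1)
    (hl0 : 0 < l) (hl1 : l < 1) (ht : t = (1 - l) * t0 + l * t1) :
    ∃ C : ℝ, ∀ R : ℝ, 0 < R → ∃ c ∈ Icc (-C) C,
      FI u 1 t0 (t0 - t) R c * FI u (-1) t1 (t1 - t) R c =
        FI u 1 t1 (t1 - t) R c * FI u (-1) t0 (t0 - t) R c := by
  have huc := hu.cont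
  have hM := hu.M0
  have hd0 : 0 < t - t0 := by
    rw [ht]
    have : (1 - l) * t0 + l * t1 - t0 = l * (t1 - t0) := by ring
    rw [this]
    have : 0 < t1 - t0 := by linarith
    positivity
  have hd1 : 0 < t1 - t := by
    rw [ht]
    have : t1 - ((1 - l) * t0 + l * t1) = (1 - l) * (t1 - t0) := by ring
    rw [this]
    have : 0 < t1 - t0 := by linarith
    have : 0 < 1 - l := by linarith
    positivity
  set C := max (M * (1 + |t0|) / (t - t0)) (M * (1 + |t1|) / (t1 - t)) with hC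
  have hC0 : M * (1 + |t0|) ≤ C * (t - t0) := by
    rw [← div_le_iff₀ hd0]
    exact le_max_left _ _
  have hC1 : M * (1 + |t1|) ≤ C * (t1 - t) := by
    rw [← div_le_iff₀ hd1]
    exact le_max_right _ _
  have hCnn : 0 ≤ C := le_trans (by positivity) (le_max_left _ _)
  refine ⟨C, fun R hR => ?_⟩
  have hE : 0 < R * Real.exp (u (0, 0)) := by positivity
  set D : ℝ → ℝ := fun c => FI u 1 t0 (t0 - t) R c * FI u (-1) t1 (t1 - t) R c -
        FI u 1 t1 (t1 - t) R c * FI u (-1) t0 (t0 - t) R c with hD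
  have hDc : Continuous D := by
    have h1 := FI_cont huc 1 t0 (t0 - t) R
    have h2 := FI_cont huc (-1) t1 (t1 - t) R
    have h3 := FI_cont huc 1 t1 (t1 - t) R
    have h4 := FI_cont huc (-1) t0 (t0 - t) R
    rw [hD]
    fun_prop
  have hD1 : D C ≤ 0 := by
    have h1 := FI_le hu (σ := 1) (τ := t0) (d := t0 - t) (by simp) hR (c := C) (by linarith)
    have h2 := FI_le hu (σ := -1) (τ := t1) (d := t1 - t) (by simp) hR (c := C) (by linarith)
    have h3 := FI_ge hu (σ := 1) (τ := t1) (d := t1 - t) (by simp) hR (c := C) (by linarith)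
    have h4 := FI_ge hu (σ := -1) (τ := t0) (d := t0 - t) (by simp) hR (c := C) (by linarith)
    have h5 := mul_le_mul h1 h2 (FI_pos huc (-1) t1 (t1 - t) hR C).le hE.le
    have h6 := mul_le_mul h3 h4 hE.le (FI_pos huc 1 t1 (t1 - t) hR C).le
    rw [hD]
    linarith
  have hD2 : 0 ≤ D (-C) := by
    have h1 := FI_ge hu (σ := 1) (τ := t0) (d := t0 - t) (by simp) hR (c := -C) (by linarith)
    have h2 := FI_ge hu (σ := -1) (τ := t1) (d := t1 - t) (by simp) hR (c := -C) (by linarith)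
    have h3 := FI_le hu (σ := 1) (τ := t1) (d := t1 - t) (by simp) hR (c := -C) (by linarith)
    have h4 := FI_le hu (σ := -1) (τ := t0) (d := t0 - t) (by simp) hR (c := -C) (by linarith)
    have h5 := mul_le_mul h1 h2 hE.le (FI_pos huc 1 t0 (t0 - t) hR (-C)).le
    have h6 := mul_le_mul h3 h4 (FI_pos huc (-1) t0 (t0 - t) hR (-C)).le hE.le
    rw [hD]
    linarith
  have hle : -C ≤ C := by linarith
  obtain ⟨c, hc, hc0⟩ := intermediate_value_Icc' hle hDc.continuousOn ⟨hD1, hD2⟩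
  exact ⟨c, hc, by rw [hD] at hc0; linarith⟩

/-- at finite level, one of the two end integrals is at most the middle one -/
lemma finite_level {u : ℝ × ℝ → ℝ} {M : ℝ} (hu : Nice u M) {t0 t1 l t : ℝ}
    (hl0 : 0 < l) (hl1 : l < 1) (ht : t = (1 - l) * t0 + l * t1)
    (hint : Integrable (fun a => Real.exp (u (a, t * a)))) {R : ℝ} (hR : 0 < R) {c : ℝ}
    (hc : FI u 1 t0 (t0 - t) R c * FI u (-1) t1 (t1 - t) R c =
        FI u 1 t1 (t1 - t) R c * FI u (-1) t0 (t0 - t) R c) :
    FI u 1 t0 (t0 - t) R c + FI u (-1) t0 (t0 - t) R c ≤ ∫ a, Real.exp (u (a, t * a)) ∨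
    FI u 1 t1 (t1 - t) R c + FI u (-1) t1 (t1 - t) R c ≤ ∫ a, Real.exp (u (a, t * a)) := by
  have huc := hu.cont
  set v : ℝ × ℝ → ℝ := fun z => u z + c * (z.2 - t * z.1) with hv
  have hvc : Continuous v := by rw [hv]; fun_prop
  have hvconc : ConcaveOn ℝ univ v := by
    refine ⟨convex_univ, ?_⟩
    intro x _ y _ a b ha hb hab
    have h1 := hu.conc.2 (mem_univ x) (mem_univ y) ha hb hab
    rw [hv]
    simp only [smul_eq_mul, Prod.fst_add, Prod.snd_add, Prod.smul_fst, Prod.smul_snd] at h1 ⊢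
    linarith
  have e0 : ∀ σ τ : ℝ, ∫ a in (0 : ℝ)..R, Real.exp (v (σ * a, σ * (τ * a))) =
      FI u σ τ (τ - t) R c := by
    intro σ τ
    unfold FI
    apply intervalIntegral.integral_congr
    intro a _
    show Real.exp (u _ + _) = Real.exp _
    congr 2
    show c * (σ * (τ * a) - t * (σ * a)) = _
    ring
  have e1 : ∀ σ a : ℝ, v (σ * a, σ * (t * a)) = u (σ * a, t * (σ * a)) := by
    intro σ a
    rw [hv]
    show u (σ * a, σ * (t * a)) + c * (σ * (t * a) - t * (σ * a)) = _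
    have : σ * (t * a) = t * (σ * a) := by ring
    rw [this, sub_self, mul_zero, add_zero]
  have hi1 : IntegrableOn (fun a => Real.exp (v (1 * a, 1 * (t * a)))) (Ioi 0) := by
    simp only [e1]
    simp only [one_mul]
    exact hint.integrableOn
  have hi2 : IntegrableOn (fun a => Real.exp (v (-1 * a, -1 * (t * a)))) (Ioi 0) := by
    simp only [e1]
    simp only [neg_mul, one_mul]
    exact hint.comp_neg.integrableOn
  have b1 := ball hvconc hvc hl0 hl1 ht 1 hR hi1
  have b2 := ball hvconc hvc hl0 hl1 ht (-1) hR hi2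
  simp only [e0] at b1 b2
  simp only [e1] at b1 b2
  simp only [one_mul, neg_mul] at b1 b2
  have hsplit : ∫ a, Real.exp (u (a, t * a)) =
      (∫ a in Ioi (0 : ℝ), Real.exp (u (a, t * a))) +
        ∫ a in Ioi (0 : ℝ), Real.exp (u (-a, t * -a)) := by
    have h1 := integral_comp_neg_Ioi (0 : ℝ) (fun a => Real.exp (u (a, t * a)))
    rw [h1, neg_zero, add_comm, intervalIntegral.integral_Iic_add_Ioi hint.integrableOn
      hint.integrableOn]
  rw [hsplit]
  exact select (FI_pos huc _ _ _ hR _) (FI_pos huc _ _ _ hR _) (FI_pos huc _ _ _ hR _)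
    (FI_pos huc _ _ _ hR _)
    (setIntegral_nonneg measurableSet_Ioi fun a _ => (Real.exp_pos _).le)
    (setIntegral_nonneg measurableSet_Ioi fun a _ => (Real.exp_pos _).le) hl0 hl1 hc b1 b2

/-- Fatou -/
lemma fatou {u : ℝ × ℝ → ℝ} (hu : Continuous u) (τ d : ℝ) {R c : ℕ → ℝ} {c' : ℝ}
    (hRpos : ∀ k, 0 < R k) (hR : Tendsto R atTop atTop) (hc : Tendsto c atTop (𝓝 c')) {S : ℝ≥0∞}
    (hS : ∀ k, ENNReal.ofReal (FI u 1 τ d (R k) (c k) + FI u (-1) τ d (R k) (c k)) ≤ S) :
    ∫⁻ a : ℝ, ENNReal.ofReal (Real.exp (u (a, τ * a) + c' * (d * a))) ≤ S := by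
  set F : ℕ → ℝ → ℝ≥0∞ := fun k => (Ioc (-(R k)) (R k)).indicator
    (fun a => ENNReal.ofReal (Real.exp (u (a, τ * a) + c k * (d * a)))) with hF
  have hFm : ∀ k, Measurable (F k) := by
    intro k
    apply Measurable.indicator _ measurableSet_Ioc
    apply Measurable.ennreal_ofReal
    apply Continuous.measurable
    fun_prop
  have hlim : ∀ a : ℝ, Tendsto (fun k => F k a) atTop
      (𝓝 (ENNReal.ofReal (Real.exp (u (a, τ * a) + c' * (d * a))))) := by
    intro a
    have h1 : ∀ᶠ k in atTop, F k a = ENNReal.ofReal (Real.exp (u (a, τ * a) + c k * (d * a))) := by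
      filter_upwards [hR.eventually_gt_atTop |a|] with k hk
      have := abs_lt.1 hk
      exact indicator_of_mem (show a ∈ Ioc (-(R k)) (R k) from ⟨this.1, this.2.le⟩) _
    have h2 : Tendsto (fun k => ENNReal.ofReal (Real.exp (u (a, τ * a) + c k * (d * a)))) atTop
        (𝓝 (ENNReal.ofReal (Real.exp (u (a, τ * a) + c' * (d * a))))) := by
      have h3 : Continuous fun x : ℝ => ENNReal.ofReal (Real.exp (u (a, τ * a) + x * (d * a))) :=
        ENNReal.continuous_ofReal.comp (by fun_prop)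
      exact (h3.tendsto c').comp hc
    exact h2.congr' (h1.mono fun k hk => hk.symm)
  calc ∫⁻ a : ℝ, ENNReal.ofReal (Real.exp (u (a, τ * a) + c' * (d * a)))
      = ∫⁻ a, liminf (fun k => F k a) atTop := by
        refine lintegral_congr fun a => ?_
        exact (hlim a).liminf_eq.symm
    _ ≤ liminf (fun k => ∫⁻ a, F k a) atTop := lintegral_liminf_le hFm
    _ ≤ S := by
        apply liminf_le_of_le
        · isBoundedDefault
        · intro b hb
          obtain ⟨k, hk⟩ := hb.exists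
          refine hk.trans ?_
          rw [hF]
          simp only
          rw [lintegral_indicator measurableSet_Ioc, FI_add hu τ d (hRpos k) (c k)]
          exact hS k

theorem key2 {u : ℝ × ℝ → ℝ} {M : ℝ} (hu : Nice u M) {t0 t1 l t : ℝ} (h01 : t0 < t1)
    (hl0 : 0 < l) (hl1 : l < 1) (ht : t = (1 - l) * t0 + l * t1) :
    ∃ c : ℝ, (∫⁻ a : ℝ, ENNReal.ofReal (Real.exp (u (a, t0 * a) + c * ((t0 - t) * a))) ≤
        ∫⁻ a : ℝ, ENNReal.ofReal (Real.exp (u (a, t * a)))) ∨
      (∫⁻ a : ℝ, ENNReal.ofReal (Real.exp (u (a, t1 * a) + c * ((t1 - t) * a))) ≤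
        ∫⁻ a : ℝ, ENNReal.ofReal (Real.exp (u (a, t * a)))) := by
  have huc := hu.cont
  by_cases hI : ∫⁻ a : ℝ, ENNReal.ofReal (Real.exp (u (a, t * a))) = ∞
  · exact ⟨0, Or.inl (by rw [hI]; exact le_top)⟩
  have hcont : Continuous fun a : ℝ => Real.exp (u (a, t * a)) := by fun_prop
  have hint : Integrable (fun a : ℝ => Real.exp (u (a, t * a))) := by
    refine ⟨hcont.aestronglyMeasurable, ?_⟩
    rw [hasFiniteIntegral_iff_ofReal (Eventually.of_forall fun a => (Real.exp_pos _).le)]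
    exact lt_top_iff_ne_top.2 hI
  rw [← ofReal_integral_eq_lintegral_ofReal hint
    (Eventually.of_forall fun a => (Real.exp_pos _).le)]
  obtain ⟨C, hC⟩ := exists_tilt hu h01 hl0 hl1 ht
  choose c hcm hc using fun k : ℕ => hC ((k : ℝ) + 1) (by positivity)
  have hfin := fun k : ℕ => finite_level hu hl0 hl1 ht hint (show (0 : ℝ) < (k : ℝ) + 1 by positivity)
    (hc k)
  have hRt : Tendsto (fun k : ℕ => (k : ℝ) + 1) atTop atTop :=
    tendsto_atTop_add_const_right _ _ tendsto_natCast_atTop_atTop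
  by_cases hfr : ∃ᶠ k : ℕ in atTop, FI u 1 t0 (t0 - t) ((k : ℝ) + 1) (c k) +
      FI u (-1) t0 (t0 - t) ((k : ℝ) + 1) (c k) ≤ ∫ a, Real.exp (u (a, t * a))
  · obtain ⟨φ, hφ, hφ2⟩ := extraction_of_frequently_atTop hfr
    obtain ⟨c', _, ψ, hψ, hψ2⟩ := isCompact_Icc.tendsto_subseq (fun k => hcm (φ k))
    refine ⟨c', Or.inl ?_⟩
    refine fatou huc t0 (t0 - t) (R := fun k => ((φ (ψ k) : ℕ) : ℝ) + 1)
      (c := fun k => c (φ (ψ k))) (fun k => by positivity)
      (hRt.comp (hφ.tendsto_atTop.comp hψ.tendsto_atTop)) hψ2 ?_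
    intro k
    exact ENNReal.ofReal_le_ofReal (hφ2 (ψ k))
  · rw [not_frequently] at hfr
    have hev : ∀ᶠ k : ℕ in atTop, FI u 1 t1 (t1 - t) ((k : ℝ) + 1) (c k) +
      FI u (-1) t1 (t1 - t) ((k : ℝ) + 1) (c k) ≤ ∫ a, Real.exp (u (a, t * a)) := by
      filter_upwards [hfr] with k hk
      exact (hfin k).resolve_left hk
    obtain ⟨φ, hφ, hφ2⟩ := extraction_of_frequently_atTop hev.frequently
    obtain ⟨c', _, ψ, hψ, hψ2⟩ := isCompact_Icc.tendsto_subseq (fun k => hcm (φ k))
    refine ⟨c', Or.inr ?_⟩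
    refine fatou huc t1 (t1 - t) (R := fun k => ((φ (ψ k) : ℕ) : ℝ) + 1)
      (c := fun k => c (φ (ψ k))) (fun k => by positivity)
      (hRt.comp (hφ.tendsto_atTop.comp hψ.tendsto_atTop)) hψ2 ?_
    intro k
    exact ENNReal.ofReal_le_ofReal (hφ2 (ψ k))

end Pool.Agent.H58.LM.L
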