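import Mathlib

/-!
# Project LM (MP_5f4cdd_gt, very famous): the sharp non-symmetric L^p Mahler inequality for joins of planar
convex bodies, free sums with simplices, and all polytopes with at most n+2 vertices, every p > 0, every n.

The planar case is in the library (Pool/Graph/R_pool_sql_team_seeded_b3bd081e/H518R3/LP1.lean .. LP10.lean:
fetch them with `team-store fetch --alone /workdir/pool PATH`); most of the analytic stubs are adaptations
of these files from the plane to dimension n. Do NOT import Pool.Graph; copies of LP1, LP2 (namespace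
Pool.Agent.H58.LM.L) will be on main as Pool/Agent/H58/LM/L2.lean (theorem key2), and the
Prekopa-Leindler inequality `PL` is in Pool/Agent/H59/L/S8/H212R2/KLS/T1.lean (on main).

Stub X: file Pool/Agent/H58/LM/T/X.lean, namespace Pool.Agent.H58.LM.T.X, `theorem main : S_X`
(the stubs named as DEPS are hypotheses: e.g. `theorem main (h1 : S_GC) : S_CORE`).
-/

set_option autoImplicit false

open MeasureTheory Set Filter
open scoped ENNReal Topology

namespace Pool.Agent.H58.LM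

/-! ## the functional -/

/-- Laplace transform of the uniform measure of `K` -/
noncomputable def Jn (p : ℝ) {n : ℕ} (K : Set (Fin n → ℝ)) (y : Fin n → ℝ) : ℝ≥0∞ :=
  ∫⁻ x in K, ENNReal.ofReal (Real.exp (p * ∑ i, x i * y i))

/-- the integral for the body `K - ξ` -/
noncomputable def In (p : ℝ) {n : ℕ} (K : Set (Fin n → ℝ)) (ξ : Fin n → ℝ) : ℝ≥0∞ :=
  ∫⁻ y : Fin n → ℝ, ENNReal.ofReal (Real.exp (∑ i, ξ i * y i)) * ((Jn p K y) ^ (1 / p))⁻¹

/-- the standard simplex -/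
def Simp (n : ℕ) : Set (Fin n → ℝ) := {z | (∀ i, 0 ≤ z i) ∧ ∑ i, z i ≤ 1}

/-- the value for the simplex -/
noncomputable def Lam (p : ℝ) (n : ℕ) : ℝ≥0∞ :=
  ⨅ ξ : Fin n → ℝ, (volume (Simp n)) ^ (1 + 1 / p) * In p (Simp n) ξ

/-- `K` satisfies the inequality (for all translates) -/
def Good (p : ℝ) {n : ℕ} (K : Set (Fin n → ℝ)) : Prop :=
  ∀ ξ : Fin n → ℝ, Lam p n ≤ (volume K) ^ (1 + 1 / p) * In p K ξ

/-- the same in a finite dimensional space without coordinates -/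
def GoodE (p : ℝ) {E : Type} [NormedAddCommGroup E] [NormedSpace ℝ E] (S : Set E) : Prop :=
  ∀ (n : ℕ) (φ : E ≃L[ℝ] (Fin n → ℝ)), Good p (φ '' S)

/-- movement in the direction `θ` with speed `b` -/
def sh {E : Type} [AddCommGroup E] [Module ℝ E] (θ : E) (b : E → ℝ) (t : ℝ) (x : E) : E :=
  x + (t * b x) • θ

/-! ## the core inequality -/

noncomputable def Jc {X : Type} [MeasurableSpace X] (μ : Measure X) (p : ℝ) {m : ℕ}
    (u : X → Fin m → ℝ) (r β : X → ℝ) (s : ℝ) (b : Fin m → ℝ) (a : ℝ) : ℝ≥0∞ :=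
  ∫⁻ x, ENNReal.ofReal (Real.exp (p * (∑ i, u x i * b i + r x * a + β x * s))) ∂μ

noncomputable def gc {X : Type} [MeasurableSpace X] (μ : Measure X) (p : ℝ) {m : ℕ}
    (u : X → Fin m → ℝ) (r β : X → ℝ) (ξ : Fin m → ℝ) (a s : ℝ) : ℝ≥0∞ :=
  ∫⁻ b : Fin m → ℝ, ENNReal.ofReal (Real.exp (∑ i, ξ i * b i)) *
    ((Jc μ p u r β s b a) ^ (1 / p))⁻¹

noncomputable def Ic {X : Type} [MeasurableSpace X] (μ : Measure X) (p : ℝ) {m : ℕ}
    (u : X → Fin m → ℝ) (r β : X → ℝ) (ξ : Fin m → ℝ) (η t : ℝ) : ℝ≥0∞ :=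
  ∫⁻ a : ℝ, ENNReal.ofReal (Real.exp (η * a)) * gc μ p u r β ξ a (t * a)

/-- hypotheses on the data -/
structure Dat {X : Type} [MeasurableSpace X] (μ : Measure X) (p : ℝ) {m : ℕ}
    (u : X → Fin m → ℝ) (r β : X → ℝ) : Prop where
  pos : 0 < p
  fin : IsFiniteMeasure μ
  ne : μ ≠ 0
  mu : Measurable u
  mr : Measurable r
  mb : Measurable β
  bd : ∃ M : ℝ, ∀ᵐ x ∂μ, (∀ i, |u x i| ≤ M) ∧ |r x| ≤ M ∧ |β x| ≤ M

/-- GC (150 lines). Exactly LP3 (Jt_meas_integrand, Jt_pos, Jt_fin, Jt_cmp, Jt_convex, G_cmp, G_conc) and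
the first half of LP4 (Jt_meas, G_meas, g_integrand_meas, g_cmp, g_pos, g_conc), with the plane replaced
by a finite measure space `X`, the coordinate `x.1` by `u x : Fin m → ℝ`, `x.2` by `r x` and `max x.1 0`
by `β x`; the bounds hold almost everywhere (use lintegral_mono_ae). Hoelder gives that Jc is log-convex
in (b, a, s), so Jc^(-1/p) is log-concave, and Prekopa-Leindler in `Fin m → ℝ`
(Pool/Agent/H59/L/S8/H212R2/KLS/T1.lean, `PL` or `PLt.pln`) gives that gc is log-concave in (a, s). -/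
def S_GC : Prop :=
  ∀ (X : Type) [MeasurableSpace X] (μ : Measure X) (p : ℝ) (m : ℕ) (u : X → Fin m → ℝ)
    (r β : X → ℝ), Dat μ p u r β → ∀ ξ : Fin m → ℝ,
    Measurable (fun q : ℝ × ℝ => gc μ p u r β ξ q.1 q.2) ∧
    (∃ M : ℝ, 0 ≤ M ∧ ∀ a s a' s' : ℝ, gc μ p u r β ξ a s ≤
      ENNReal.ofReal (Real.exp (M * (|a - a'| + |s - s'|))) * gc μ p u r β ξ a' s') ∧
    (∀ a s : ℝ, gc μ p u r β ξ a s ≠ 0) ∧
    (∀ a s a' s' θ : ℝ, 0 < θ → θ < 1 →
      (gc μ p u r β ξ a s) ^ (1 - θ) * (gc μ p u r β ξ a' s') ^ θ ≤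
        gc μ p u r β ξ ((1 - θ) * a + θ * a') ((1 - θ) * s + θ * s'))

/-- CORE (130 lines), DEPS GC. The second half of LP4 (U, U_nice, exp_U, shear_key with t = 0), with `g`
replaced by `gc`; uses key2 of LP2 (copy on main: Pool/Agent/H58/LM/L2.lean). If the right side is
infinite, or one of the end points is 0, take η' = η. -/
def S_CORE : Prop :=
  ∀ (X : Type) [MeasurableSpace X] (μ : Measure X) (p : ℝ) (m : ℕ) (u : X → Fin m → ℝ)
    (r β : X → ℝ), Dat μ p u r β → ∀ (ξ : Fin m → ℝ) (η t0 t1 : ℝ), t0 ≤ 0 → 0 ≤ t1 →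
    ∃ η' : ℝ, Ic μ p u r β ξ η' t0 ≤ Ic μ p u r β ξ η 0 ∨
      Ic μ p u r β ξ η' t1 ≤ Ic μ p u r β ξ η 0

/-- SHZ (150 lines), DEPS CORE. Movement in the direction of the coordinate 0 of `Fin (m+1) → ℝ`.
`sh θ b t` with θ = Pi.single 0 1 has the inverse `sh θ b (-t)` (b is invariant in the direction θ), is
measurable and preserves the volume (skew product in the coordinates (x_1..x_m; x_0), see LP3.shear_mp;
the measurable equivalence is MeasurableEquiv.piFinSuccAbove with volume_preserving_piFinSuccAbove).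
Hence Jn p (sh t '' K) y = ∫_K exp (p (∑_{i≥1} x_i y_i + (x_0 + t b(x)) y_0)) =
Jc (volume.restrict K) p (tail x) (x 0) b (t y_0) (tail y) (y 0), and by Fubini
In p (sh t '' K) ξ = Ic (volume.restrict K) p tail (x 0) b (tail ξ) (ξ 0) t. If volume K = 0 then Jn = 0
and both sides of the inequality are ∞ (or use that (0 ^ (1/p))⁻¹ = ∞). Apply CORE. -/
def S_SHZ : Prop :=
  ∀ (p : ℝ), 0 < p → ∀ (m : ℕ) (K : Set (Fin (m + 1) → ℝ)) (b : (Fin (m + 1) → ℝ) → ℝ),
    MeasurableSet K → Bornology.IsBounded K → Measurable b →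
    (∀ (x : Fin (m + 1) → ℝ) (s : ℝ), b (x + s • (Pi.single 0 1 : Fin (m + 1) → ℝ)) = b x) →
    (∃ M : ℝ, ∀ x ∈ K, |b x| ≤ M) →
    (∀ t : ℝ, volume (sh (Pi.single 0 1 : Fin (m + 1) → ℝ) b t '' K) = volume K ∧
      MeasurableSet (sh (Pi.single 0 1 : Fin (m + 1) → ℝ) b t '' K)) ∧
    ∀ t0 t1 : ℝ, t0 ≤ 0 → 0 ≤ t1 → ∀ ξ, ∃ ξ',
      In p (sh (Pi.single 0 1 : Fin (m + 1) → ℝ) b t0 '' K) ξ' ≤ In p K ξ ∨
      In p (sh (Pi.single 0 1 : Fin (m + 1) → ℝ) b t1 '' K) ξ' ≤ In p K ξ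

/-- AFF (120 lines). Adaptation of LP5 (J_T, I_T, vol_I_T, Good.image): for x ↦ A x + a,
volume (T '' K) = |det A| volume K, Jn p (T '' K) y = |det A| exp (p ⟨a, y⟩) Jn p K (Aᵀ y),
In p (T '' K) (T ξ) = |det A|^(-1-1/p) In p K ξ (substitute y = (Aᵀ)⁻¹ z). The transpose: the
matrix of A, `Matrix.transpose`, ⟨A x, y⟩ = ⟨x, Aᵀ y⟩ is `Matrix.dotProduct_mulVec`;
change of variables: MeasureTheory.Measure.addHaar_image_continuousLinearMap,
Real.map_matrix_volume_pi_eq_smul_volume_pi, or lintegral_image_eq_lintegral_abs_det_fderiv_mul. -/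
def S_AFF : Prop :=
  ∀ (p : ℝ), 0 < p → ∀ (n : ℕ) (A : (Fin n → ℝ) ≃L[ℝ] (Fin n → ℝ)) (a : Fin n → ℝ)
    (K : Set (Fin n → ℝ)), MeasurableSet K → Good p K → Good p ((fun x => A x + a) '' K)

/-- EQV (60 lines), DEPS AFF. (1) If Good holds for the image under one linear equivalence with some
`Fin n → ℝ`, it holds for all: two of them have the same n (finrank), and differ by A = φ.symm.trans ψ.
(2) for ψ : F ≃L Fin n → ℝ: ψ (A x + a) = (A.trans ψ) x + ψ a; apply the hypothesis to A.trans ψ and AFF to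
the translation. (3) a direct consequence. -/
def S_EQV : Prop :=
  ∀ (p : ℝ), 0 < p →
    ∀ (E F : Type) [NormedAddCommGroup E] [NormedSpace ℝ E] [FiniteDimensional ℝ E]
    [MeasurableSpace E] [BorelSpace E] [NormedAddCommGroup F] [NormedSpace ℝ F]
    [FiniteDimensional ℝ F] [MeasurableSpace F] [BorelSpace F] (S : Set E), MeasurableSet S →
    (∀ (n : ℕ) (φ : E ≃L[ℝ] (Fin n → ℝ)), Good p (φ '' S) → GoodE p S) ∧
    (∀ (A : E ≃L[ℝ] F) (a : F), GoodE p S → GoodE p ((fun x => A x + a) '' S)) ∧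
    (∀ (A : E ≃L[ℝ] F) (a : F), GoodE p ((fun x => A x + a) '' S) → GoodE p S)

/-- SHE (100 lines), DEPS SHZ EQV AFF. The movement in any space and any direction. If θ = 0, the image is
S. Otherwise take φ : E ≃L (Fin (m+1) → ℝ) with φ θ = Pi.single 0 1 (exists: a basis of E containing θ;
or compose any equivalence with a linear automorphism of Fin (m+1) → ℝ, e.g.
`exists_continuousLinearEquiv_apply_eq`, which needs a separating dual / or
LinearEquiv from Basis.mk), K = φ '' S, b' = b ∘ φ.symm: φ '' (sh θ b t '' S) = sh e0 b' t '' K. SHZ. Then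
Good (φ '' S) by the two cases and equality of the volumes, and EQV (1). -/
def S_SHE : Prop :=
  ∀ (p : ℝ), 0 < p →
    ∀ (E : Type) [NormedAddCommGroup E] [NormedSpace ℝ E] [FiniteDimensional ℝ E]
    [MeasurableSpace E] [BorelSpace E] (S : Set E) (θ : E) (b : E → ℝ),
    MeasurableSet S → Bornology.IsBounded S → Measurable b →
    (∀ x (s : ℝ), b (x + s • θ) = b x) → (∃ M : ℝ, ∀ x ∈ S, |b x| ≤ M) →
    (∀ t : ℝ, MeasurableSet (sh θ b t '' S)) ∧
    ∀ t0 t1 : ℝ, t0 ≤ 0 → 0 ≤ t1 →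
      GoodE p (sh θ b t0 '' S) → GoodE p (sh θ b t1 '' S) → GoodE p S

/-- LIM (90 lines). (1) outer approximation: for φ : E ≃L Fin n → ℝ the measure μ is a constant multiple
of the pull back of the volume (Haar), so volume (φ '' P) ≤ (1+δ) volume (φ '' S); In is decreasing in the
set (LP9.I_mono), so Lam ≤ volume(φ''P)^q In(φ''P) ≤ (1+δ)^q volume(φ''S)^q In(φ''S), q = 1+1/p, and
let δ → 0. (2) Good depends only on the set up to null sets: Jn, volume do
(setLIntegral_congr, measure_congr; a null set for μ is null for the image measure). -/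
def S_LIM : Prop :=
  ∀ (p : ℝ), 0 < p →
    ∀ (E : Type) [NormedAddCommGroup E] [NormedSpace ℝ E] [FiniteDimensional ℝ E]
    [MeasurableSpace E] [BorelSpace E] (μ : Measure E) [μ.IsAddHaarMeasure] (S : Set E),
    MeasurableSet S →
    ((∀ δ : ℝ, 0 < δ → ∃ P : Set E, MeasurableSet P ∧ S ⊆ P ∧ μ P ≤ ENNReal.ofReal (1 + δ) * μ S ∧
      GoodE p P) → GoodE p S) ∧
    (∀ S' : Set E, S =ᵐ[μ] S' → GoodE p S → GoodE p S')

/-! ## families of homothetic fibres -/

/-- base, centres and scales -/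
structure Ctx (W X : Type) [NormedAddCommGroup W] [NormedSpace ℝ W] [MeasurableSpace W]
    [NormedAddCommGroup X] [NormedSpace ℝ X] [MeasurableSpace X] where
  D : Set W
  c : W → X
  lam : W → ℝ
  mD : MeasurableSet D
  bD : Bornology.IsBounded D
  mc : Measurable c
  bc : ∃ M : ℝ, ∀ w ∈ D, ‖c w‖ ≤ M
  ml : Measurable lam
  bl : ∃ M : ℝ, ∀ w ∈ D, lam w ≤ M
  pl : ∀ w ∈ D, 0 < lam w

/-- the set with the fibres `c w + lam w • K` over the points `w` of the base -/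
def Ctx.fill {W X : Type} [NormedAddCommGroup W] [NormedSpace ℝ W] [MeasurableSpace W]
    [NormedAddCommGroup X] [NormedSpace ℝ X] [MeasurableSpace X] (C : Ctx W X) (K : Set X) :
    Set (W × X) :=
  {z | z.1 ∈ C.D ∧ ∃ k ∈ K, z.2 = C.c z.1 + C.lam z.1 • k}

/-- simplices of full dimension -/
def IsSimp {X : Type} [NormedAddCommGroup X] [NormedSpace ℝ X] (T : Set X) : Prop :=
  ∃ (n : ℕ) (A : (Fin n → ℝ) ≃L[ℝ] X) (a : X), T = (fun x => A x + a) '' Simp n

/-- `K` can be replaced by simplices in all families -/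
def Red (p : ℝ) {X : Type} [NormedAddCommGroup X] [NormedSpace ℝ X] [MeasurableSpace X]
    (K : Set X) : Prop :=
  ∀ (W : Type) [NormedAddCommGroup W] [NormedSpace ℝ W] [FiniteDimensional ℝ W]
    [MeasurableSpace W] [BorelSpace W] (C : Ctx W X),
    (∀ T : Set X, IsSimp T → GoodE p (C.fill T)) → GoodE p (C.fill K)

/-- FILL (120 lines). (1) fill K = {z | z.1 ∈ D ∧ (lam z.1)⁻¹ • (z.2 - c z.1) ∈ K}, a measurable set; (2)
bounded if K is bounded; (3) Fubini: the fibre over w has the measure lam^d ν K (addHaar_smul,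
translation invariance), so (μ × ν)(fill K) = (∫_D lam^d dμ) ν K; the constant is finite. -/
def S_FILL : Prop :=
  ∀ (W X : Type) [NormedAddCommGroup W] [NormedSpace ℝ W] [FiniteDimensional ℝ W]
    [MeasurableSpace W] [BorelSpace W] [NormedAddCommGroup X] [NormedSpace ℝ X]
    [FiniteDimensional ℝ X] [MeasurableSpace X] [BorelSpace X] (C : Ctx W X),
    (∀ K : Set X, MeasurableSet K → MeasurableSet (C.fill K)) ∧
    (∀ K : Set X, Bornology.IsBounded K → Bornology.IsBounded (C.fill K)) ∧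
    (∀ (μ : Measure W) [μ.IsAddHaarMeasure] (ν : Measure X) [ν.IsAddHaarMeasure],
      ∃ k : ℝ≥0∞, k ≠ ∞ ∧ ∀ K : Set X, MeasurableSet K → (μ.prod ν) (C.fill K) = k * ν K)

/-- RSH (80 lines), DEPS SHE FILL. Movements of the fibre are movements of the whole family:
C.fill (sh θ b t '' K) = sh (0, θ) B t '' C.fill K, where
B (w, x) = lam w * b ((lam w)⁻¹ • (x - c w)) (for x = c + lam k: x + t B θ = c + lam (k + t b(k) θ)). B is
measurable, bounded on fill K, invariant in the direction (0, θ) (if lam w = 0 then B = 0). -/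
def S_RSH : Prop :=
  ∀ (p : ℝ), 0 < p →
    ∀ (X : Type) [NormedAddCommGroup X] [NormedSpace ℝ X] [FiniteDimensional ℝ X]
    [MeasurableSpace X] [BorelSpace X] (K : Set X) (θ : X) (b : X → ℝ),
    MeasurableSet K → Bornology.IsBounded K → Measurable b →
    (∀ x (s : ℝ), b (x + s • θ) = b x) → (∃ M : ℝ, ∀ x ∈ K, |b x| ≤ M) →
    ∀ t0 t1 : ℝ, t0 ≤ 0 → 0 ≤ t1 →
      Red p (sh θ b t0 '' K) → Red p (sh θ b t1 '' K) → Red p K

/-- RAFF (80 lines), DEPS EQV FILL. For the family C over Y and T x = A x + a: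
C.fill (T '' K) = (id × A) '' C'.fill K with C' = (D, A⁻¹ (c + lam a), lam), and simplices T' of X
correspond to simplices T '' T' of Y. GoodE is invariant under id × A (EQV). -/
def S_RAFF : Prop :=
  ∀ (p : ℝ), 0 < p →
    ∀ (X Y : Type) [NormedAddCommGroup X] [NormedSpace ℝ X] [FiniteDimensional ℝ X]
    [MeasurableSpace X] [BorelSpace X] [NormedAddCommGroup Y] [NormedSpace ℝ Y]
    [FiniteDimensional ℝ Y] [MeasurableSpace Y] [BorelSpace Y] (A : X ≃L[ℝ] Y) (a : Y)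
    (K : Set X), MeasurableSet K → Red p K → Red p ((fun x => A x + a) '' K)

/-- RLIM (80 lines), DEPS LIM FILL. Outer approximation and null sets for Red: K ⊆ P gives
C.fill K ⊆ C.fill P, with measures k ν K and k ν P; if K =ᵐ K' then C.fill K =ᵐ C.fill K' (the measure
of C.fill (K \ K') is 0). -/
def S_RLIM : Prop :=
  ∀ (p : ℝ), 0 < p →
    ∀ (X : Type) [NormedAddCommGroup X] [NormedSpace ℝ X] [FiniteDimensional ℝ X]
    [MeasurableSpace X] [BorelSpace X] (μ : Measure X) [μ.IsAddHaarMeasure] (K : Set X),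
    MeasurableSet K →
    ((∀ δ : ℝ, 0 < δ → ∃ P : Set X, MeasurableSet P ∧ K ⊆ P ∧ μ P ≤ ENNReal.ofReal (1 + δ) * μ K ∧
      Red p P) → Red p K) ∧
    (∀ K' : Set X, MeasurableSet K' → K =ᵐ[μ] K' → Red p K → Red p K')

/-- RFILL (120 lines), DEPS EQV FILL. Composition of families. Let C : Ctx W X. With ψ.symm (c w) =
(c₁ w, c₂ w) and w' = (lam w)⁻¹ • (u - c₁ w) put C'' : Ctx (W × W') X',
D'' = {(w, u) | w ∈ D ∧ w' ∈ D'}, c'' (w, u) = c₂ w + lam w • c' w', lam'' = lam w * lam' w'. Then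
C.fill (ψ '' C'.fill K) = Ψ '' C''.fill K with Ψ ((w, u), v) = (w, ψ (u, v)). Apply Red K to C'': for a
simplex T, C''.fill T is good since Ψ '' C''.fill T = C.fill (ψ '' C'.fill T) is good by the hypothesis. -/
def S_RFILL : Prop :=
  ∀ (p : ℝ), 0 < p →
    ∀ (X X' W' : Type) [NormedAddCommGroup X] [NormedSpace ℝ X] [FiniteDimensional ℝ X]
    [MeasurableSpace X] [BorelSpace X] [NormedAddCommGroup X'] [NormedSpace ℝ X']
    [FiniteDimensional ℝ X'] [MeasurableSpace X'] [BorelSpace X'] [NormedAddCommGroup W']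
    [NormedSpace ℝ W'] [FiniteDimensional ℝ W'] [MeasurableSpace W'] [BorelSpace W']
    (C' : Ctx W' X') (ψ : (W' × X') ≃L[ℝ] X) (K : Set X'), MeasurableSet K → Red p K →
    (∀ T : Set X', IsSimp T → Red p (ψ '' C'.fill T)) → Red p (ψ '' C'.fill K)

/-- RTRIV (60 lines), DEPS EQV. (1) a simplex satisfies Red (trivial); (2) Red implies GoodE: take W =
(Fin 0 → ℝ), D = univ, c = 0, lam = 1: the fill of K is {0} × K, the image of K under the equivalence
X ≃L (Fin 0 → ℝ) × X, and the fill of a simplex A '' Simp n + a is good: its image under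
some equivalence with Fin n → ℝ is Simp n up to translation, for which Good holds by definition
of Lam (iInf_le). -/
def S_RTRIV : Prop :=
  ∀ (p : ℝ), 0 < p →
    ∀ (X : Type) [NormedAddCommGroup X] [NormedSpace ℝ X] [FiniteDimensional ℝ X]
    [MeasurableSpace X] [BorelSpace X] (K : Set X), MeasurableSet K →
    (IsSimp K → Red p K) ∧ (Red p K → GoodE p K)

/-! ## the plane -/

/-- the affine maps of the plane -/
def TT (α β γ δ : ℝ) (b : ℝ × ℝ) (x : ℝ × ℝ) : ℝ × ℝ :=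
  (α * x.1 + β * x.2 + b.1, γ * x.1 + δ * x.2 + b.2)

/-- the standard triangle -/
def Tri : Set (ℝ × ℝ) := {x | 0 ≤ x.1 ∧ 0 ≤ x.2 ∧ x.1 + x.2 ≤ 1}

/-- POLY (LP5-LP8 with `Good p` replaced by an abstract property G; pure adaptation, 600 lines copied).
Induction on the number of vertices of a polygon. -/
def S_POLY : Prop :=
  ∀ G : Set (ℝ × ℝ) → Prop, G Tri →
    (∀ (α β γ δ : ℝ) (b : ℝ × ℝ) (K : Set (ℝ × ℝ)), α * δ - β * γ ≠ 0 → IsCompact K → G K →
      G (TT α β γ δ b '' K)) →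
    (∀ (K : Set (ℝ × ℝ)) (t0 t1 : ℝ), IsCompact K → t0 ≤ 0 → 0 ≤ t1 →
      G (sh ((0, 1) : ℝ × ℝ) (fun x => max x.1 0) t0 '' K) →
      G (sh ((0, 1) : ℝ × ℝ) (fun x => max x.1 0) t1 '' K) → G K) →
    ∀ S : Finset (ℝ × ℝ), volume (convexHull ℝ (S : Set (ℝ × ℝ))) ≠ 0 →
      G (convexHull ℝ (S : Set (ℝ × ℝ)))

/-- PLAN (120 lines), DEPS POLY RSH RAFF RLIM RTRIV. Apply POLY to G K := (Red p K), then outer
approximation: z ∈ interior K, ε > 0; (1-ε) K + ε z is a compact subset of the interior of K, so there is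
a finite S ⊆ K with (1-ε) K + ε z ⊆ conv S (LP9.exists_finset); P = the image of conv S under the inverse
homothety contains K and has the area ≤ (1-ε)^(-2) |K|. Transfer to Fin 2 → ℝ by RAFF. -/
def S_PLAN : Prop :=
  ∀ (p : ℝ), 0 < p → ∀ K : Set (Fin 2 → ℝ), Convex ℝ K → IsCompact K → (interior K).Nonempty →
    Red p K

/-! ## joins and free sums -/

/-- the join -/
def Jo {X Y : Type} [AddCommGroup X] [Module ℝ X] [AddCommGroup Y] [Module ℝ Y] (K : Set X)
    (L : Set Y) : Set (X × Y × ℝ) :=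
  {z | 0 ≤ z.2.2 ∧ z.2.2 ≤ 1 ∧ (∃ k ∈ K, z.1 = (1 - z.2.2) • k) ∧ ∃ l ∈ L, z.2.1 = z.2.2 • l}

/-- the free sum -/
def Su {X Y : Type} [AddCommGroup X] [Module ℝ X] [AddCommGroup Y] [Module ℝ Y] (K : Set X)
    (L : Set Y) : Set (X × Y) :=
  {z | ∃ r : ℝ, 0 ≤ r ∧ r ≤ 1 ∧ (∃ k ∈ K, z.1 = (1 - r) • k) ∧ ∃ l ∈ L, z.2 = r • l}

/-- JSIMP (80 lines). The join of two simplices is a simplex: with T₁ = A₁ '' Simp m + a₁,
T₂ = A₂ '' Simp n + a₂, the join is the image of Simp (m+n+1) under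
(s, τ, ρ) ↦ ((1-r) a₁ + A₁ s, r a₂ + A₂ τ, r), r = ∑ τ + ρ. (s ≥ 0, ∑ s ≤ 1 - r; τ ≥ 0, ∑ τ ≤ r.) -/
def S_JSIMP : Prop :=
  ∀ (X Y : Type) [NormedAddCommGroup X] [NormedSpace ℝ X] [NormedAddCommGroup Y]
    [NormedSpace ℝ Y] (T₁ : Set X) (T₂ : Set Y), IsSimp T₁ → IsSimp T₂ → IsSimp (Jo T₁ T₂)

/-- JOIN (150 lines), DEPS RFILL RLIM RTRIV JSIMP. Up to the null sets r = 0, r = 1 the join Jo K L is
ψ '' C'.fill K with W' = Y × ℝ, D' = {(y, r) | 0 < r < 1, r⁻¹ • y ∈ L}, c' = 0, lam' = 1 - r, ψ the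
rearrangement, and also ψ '' C'.fill L with W' = X × ℝ, D' = {(x, r) | 0 < r < 1, (1-r)⁻¹ • x ∈ K},
lam' = r. Two applications of RFILL reduce to the join of two simplices (JSIMP, RTRIV). -/
def S_JOIN : Prop :=
  ∀ (p : ℝ), 0 < p →
    ∀ (X Y : Type) [NormedAddCommGroup X] [NormedSpace ℝ X] [FiniteDimensional ℝ X]
    [MeasurableSpace X] [BorelSpace X] [NormedAddCommGroup Y] [NormedSpace ℝ Y]
    [FiniteDimensional ℝ Y] [MeasurableSpace Y] [BorelSpace Y] (K : Set X) (L : Set Y),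
    IsCompact K → IsCompact L → Red p K → Red p L → Red p (Jo K L)

/-- SUMV (150 lines), DEPS RFILL RLIM RTRIV. The free sum of a simplex with a vertex at 0 and a body
through 0: Su (A '' Simp m) L = {(A s, y) | s ∈ Simp m, y ∈ (1 - ∑ s) L} (0 ∈ L, L convex) is, up to null
sets, C'.fill L with W' = X, D' = {A s | s_i ≥ 0, ∑ s < 1}, c' = 0, lam' = 1 - ∑ s. By RFILL one may
replace L by a simplex T₂ = A₂ '' Simp n + a₂ (0 need not be in T₂), and
{(A s, y) | s ∈ Simp m, ∑ s < 1, y ∈ (1 - ∑ s) T₂} is up to null sets the image of Simp (m+n) under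
(s, τ) ↦ (A s, (1 - ∑ s) a₂ + A₂ τ), a simplex. -/
def S_SUMV : Prop :=
  ∀ (p : ℝ), 0 < p →
    ∀ (X Y : Type) [NormedAddCommGroup X] [NormedSpace ℝ X] [FiniteDimensional ℝ X]
    [MeasurableSpace X] [BorelSpace X] [NormedAddCommGroup Y] [NormedSpace ℝ Y]
    [FiniteDimensional ℝ Y] [MeasurableSpace Y] [BorelSpace Y] (m : ℕ)
    (A : (Fin m → ℝ) ≃L[ℝ] X) (L : Set Y), IsCompact L → Convex ℝ L → (0 : Y) ∈ L → Red p L →
    Red p (Su (A '' Simp m) L)

/-- SUMT (150 lines), DEPS SUMV RSH RAFF. The set of the points v of the simplex Simp m for which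
Red p (Su (Simp m - v) L) holds is convex: let v = (1-s) v₀ + s v₁, θ = (v₁ - v₀, 0), and
b (x, y) = max 0 (1 - gauge L y) (measurable: gauge L is a supremum/infimum, or by lower
semicontinuity, {gauge L ≤ r} = r L is closed for 0 < r; invariant in the first variable). For w ∈ Simp m
and L convex compact with 0 ∈ L,
Su (Simp m - w) L = {(x, y) | gauge-ball: ∃ r ∈ [0,1], y ∈ r L, x ∈ (1-r) (Simp m - w)}
= {(x, y) | y ∈ L, x ∈ (1 - g(y)) (Simp m - w)}, g(y) = the least r ≥ 0 with y ∈ r L (attained), since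
(1-r)(Simp m - w) decreases with r (0 ∈ Simp m - w). Therefore
Su (Simp m - (v + t (v₁-v₀))) L = sh θ b (-t) '' Su (Simp m - v) L as long as v + t (v₁ - v₀) ∈ Simp m.
The vertices v of Simp m are in this set: Simp m - v is the image of Simp m under a linear automorphism
(for v = 0 the identity; for v = e_j: the map x ↦ x - (∑ x_i + x_j ... ) e_j, i.e. the linear map fixing
e_i (i ≠ j) up to the shift e_i ↦ e_i - e_j, e_j ↦ -e_j), so SUMV applies. Simp m is the convex hull of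
0 and the e_j. -/
def S_SUMT : Prop :=
  ∀ (p : ℝ), 0 < p →
    ∀ (Y : Type) [NormedAddCommGroup Y] [NormedSpace ℝ Y]
    [FiniteDimensional ℝ Y] [MeasurableSpace Y] [BorelSpace Y] (m : ℕ) (L : Set Y),
    IsCompact L → Convex ℝ L → (0 : Y) ∈ L → Red p L → ∀ v ∈ Simp m,
    Red p (Su ((fun x => x - v) '' Simp m) L)

/-! ## the class -/

/-- the class of convex bodies -/
inductive Cls : ∀ n : ℕ, Set (Fin n → ℝ) → Prop
  | simplex (n : ℕ) : Cls n (Simp n)
  | planar (K : Set (Fin 2 → ℝ)) : Convex ℝ K → IsCompact K → (interior K).Nonempty → Cls 2 K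
  | affine {n : ℕ} {K : Set (Fin n → ℝ)} (A : (Fin n → ℝ) ≃L[ℝ] (Fin n → ℝ)) (a : Fin n → ℝ) :
      Cls n K → Cls n ((fun x => A x + a) '' K)
  | join {m n : ℕ} {K : Set (Fin m → ℝ)} {L : Set (Fin n → ℝ)}
      (A : (Fin m → ℝ) →ᵃ[ℝ] (Fin (m + n + 1) → ℝ)) (B : (Fin n → ℝ) →ᵃ[ℝ] (Fin (m + n + 1) → ℝ)) :
      Cls m K → Cls n L → (interior (convexHull ℝ (A '' K ∪ B '' L))).Nonempty →
      Cls (m + n + 1) (convexHull ℝ (A '' K ∪ B '' L))
  | sum {m n : ℕ} {L : Set (Fin n → ℝ)} (A : (Fin m → ℝ) →ᵃ[ℝ] (Fin (m + n) → ℝ))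
      (B : (Fin n → ℝ) →ᵃ[ℝ] (Fin (m + n) → ℝ)) :
      Cls n L → (A '' Simp m ∩ B '' L).Nonempty →
      (interior (convexHull ℝ (A '' Simp m ∪ B '' L))).Nonempty →
      Cls (m + n) (convexHull ℝ (A '' Simp m ∪ B '' L))

/-- GEOJ (90 lines). The convex hull of affine copies in general position is an affine image of the join:
Ψ (x, y, r) = A.linear x + (1-r) • A 0 + B.linear y + r • B 0 maps Jo K L onto
{(1-r) A k + r B l} = convexJoin = conv (A K ∪ B L) (Convex.convexHull_union; K, L convex nonempty). Ψ is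
affine between spaces of the same dimension, and its image contains a set with interior points, so
its linear part is surjective, hence bijective. -/
def S_GEOJ : Prop :=
  ∀ (m n : ℕ) (K : Set (Fin m → ℝ)) (L : Set (Fin n → ℝ))
    (A : (Fin m → ℝ) →ᵃ[ℝ] (Fin (m + n + 1) → ℝ)) (B : (Fin n → ℝ) →ᵃ[ℝ] (Fin (m + n + 1) → ℝ)),
    Convex ℝ K → K.Nonempty → Convex ℝ L → L.Nonempty →
    (interior (convexHull ℝ (A '' K ∪ B '' L))).Nonempty →
    ∃ (Ψ : ((Fin m → ℝ) × (Fin n → ℝ) × ℝ) ≃L[ℝ] (Fin (m + n + 1) → ℝ)) (a : Fin (m + n + 1) → ℝ),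
      convexHull ℝ (A '' K ∪ B '' L) = (fun x => Ψ x + a) '' Jo K L

/-- GEOS (90 lines). The same for free sums: if A s = B l with s ∈ Simp m, l ∈ L, then
Ψ (x, y) = A.linear x + B.linear y + A s maps Su (Simp m - s) (L - l) onto {(1-r) A σ + r B λ}. -/
def S_GEOS : Prop :=
  ∀ (m n : ℕ) (L : Set (Fin n → ℝ))
    (A : (Fin m → ℝ) →ᵃ[ℝ] (Fin (m + n) → ℝ)) (B : (Fin n → ℝ) →ᵃ[ℝ] (Fin (m + n) → ℝ)),
    Convex ℝ L → (A '' Simp m ∩ B '' L).Nonempty →
    (interior (convexHull ℝ (A '' Simp m ∪ B '' L))).Nonempty →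
    ∃ v ∈ Simp m, ∃ l ∈ L, ∃ (Ψ : ((Fin m → ℝ) × (Fin n → ℝ)) ≃L[ℝ] (Fin (m + n) → ℝ))
      (a : Fin (m + n) → ℝ), convexHull ℝ (A '' Simp m ∪ B '' L) =
        (fun x => Ψ x + a) '' Su ((fun x => x - v) '' Simp m) ((fun x => x - l) '' L)

/-- CLS (100 lines), DEPS PLAN RTRIV RAFF JOIN SUMT GEOJ GEOS. Induction over the class: members are
convex, compact, with nonempty interior, and satisfy Red. (Compact: Simp closed and bounded, image, convex
hull of compact; the translate L - l satisfies Red by RAFF; Su, Jo of compact sets are compact images.) -/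
def S_CLS : Prop :=
  ∀ (p : ℝ), 0 < p → ∀ (n : ℕ) (K : Set (Fin n → ℝ)), Cls n K →
    Convex ℝ K ∧ IsCompact K ∧ (interior K).Nonempty ∧ Red p K

/-- NTWO (90 lines). n+2 points: they are affinely dependent, so by Radon's theorem
(Convex.radon_partition) there is I with conv (v '' I) ∩ conv (v '' Iᶜ) nonempty, both I, Iᶜ nonempty,
#I = m+1, #Iᶜ = k+1, m + k = n. conv (v '' I) = A '' Simp m for the affine map A with A 0, A e_j the points
of v '' I, in the same way conv (v '' Iᶜ) = B '' Simp k, and conv (range v) =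
conv (A '' Simp m ∪ B '' Simp k) ∈ Cls.sum with L = Simp k (subst n = m + k). -/
def S_NTWO : Prop :=
  ∀ (n : ℕ) (v : Fin (n + 2) → (Fin n → ℝ)), (interior (convexHull ℝ (range v))).Nonempty →
    Cls n (convexHull ℝ (range v))

/-- FIN (200 lines). The L^p Mahler volume as in the frozen statement; adaptation of LP10 (I_top,
I_top_outside, Mp_eq, Mp_shift, planar). Mp p K = volume K ^ (1+1/p) * In p K 0 for K measurable with
0 < volume K < ∞, more generally Mp p (K - x) = volume K ^ (1+1/p) * In p K x. For ξ ∉ Simp n,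
In p (Simp n) ξ = ∞: if ξ_j < 0, on the set E of the y with y_j ≤ -R, -1 ≤ y_i ≤ 0 (i ≠ j), R large,
⟨x, y⟩ ≤ 0 ≤ ⟨ξ, y⟩ for all x ∈ Simp n, so the integrand is ≥ volume(Simp)^(-1/p) on a set of infinite
volume; if ∑ ξ_i > 1, take the y with y_i ∈ [s - 1, s] for all i... (E = {y | y_0 ≥ R, -1 ≤ y_i - y_0 ≤ 0}:
⟨x, y⟩ ≤ y_0 and ⟨ξ, y⟩ ≥ y_0 ∑ ξ_i - ∑ |ξ_i| ≥ y_0). Hence the infimum over all ξ is that over Simp n. -/
def S_FIN : Prop :=
  ∀ (p : ℝ), 0 < p → ∀ (n : ℕ) (K : Set (Fin n → ℝ)), IsCompact K → (interior K).Nonempty →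
    Good p K →
    (⨅ x ∈ Simp n, volume ((fun z : Fin n → ℝ => z - x) '' Simp n) *
      ∫⁻ y : Fin n → ℝ, ENNReal.ofReal
        (((∫ z in (fun z : Fin n → ℝ => z - x) '' Simp n, Real.exp (p * ∑ i, z i * y i)) /
          (volume ((fun z : Fin n → ℝ => z - x) '' Simp n)).toReal) ^ (-(1 / p)))) ≤
    volume K * ∫⁻ y : Fin n → ℝ, ENNReal.ofReal
      (((∫ z in K, Real.exp (p * ∑ i, z i * y i)) / (volume K).toReal) ^ (-(1 / p)))

end Pool.Agent.H58.LM
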